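import Pool.Agent.Y342.ION.Main
import Pool.Agent.W851.Had.Tower

/-!
# The designs of Ionin and Kharaghani from Hadamard matrices
-/

set_option autoImplicit false

namespace Pool.Agent.Y342.ION

open Finset
open scoped LinearAlgebra.Projectivization
open Pool.Agent.H114R2 (IsSymDesign HasHad had_rows)

theorem nrm_of_had {N : ℕ} [NeZero N] (hH : HasHad N) : ∃ h : Fin N → Fin N → ℤ, Nrm h := by
  obtain ⟨H, hs, hHH⟩ := hH
  obtain ⟨hrow, hcol⟩ := had_rows (posN (N := N)) hHH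
  have hsq : ∀ b, H 0 b * H 0 b = 1 := by
    intro b
    rcases hs 0 b with h | h <;> rw [h] <;> norm_num
  refine ⟨fun k b => H k b * H 0 b, ⟨fun k b => ?_, fun b => hsq b, fun k l => ?_, fun b c => ?_⟩⟩
  · rcases hs k b with h | h <;> rcases hs 0 b with h' | h' <;> rw [h, h'] <;> norm_num
  · rw [← hrow k l]
    refine Finset.sum_congr rfl fun b _ => ?_
    have := hsq b
    linear_combination (H k b * H l b) * this
  · have h1 : ∀ k, H k b * H 0 b * (H k c * H 0 c) = H 0 b * H 0 c * (H k b * H k c) := by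
      intro k; ring
    rw [Finset.sum_congr rfl fun k _ => h1 k, ← Finset.mul_sum, hcol]
    split_ifs with h
    · subst h
      rw [hsq, one_mul]
    · rw [mul_zero]

theorem ionin {h : ℕ} (hp : IsPrimePow (2 * h + 1)) (hH : HasHad (2 * h)) (m : ℕ) :
    ∃ B : Fin (4 * h ^ 2 * ∑ i ∈ range (m + 1), (2 * h + 1) ^ (2 * i)) → Finset _,
      IsSymDesign (4 * h ^ 2 * ∑ i ∈ range (m + 1), (2 * h + 1) ^ (2 * i))
        ((2 * h + 1) ^ (2 * m) * (2 * h ^ 2 + h)) ((2 * h + 1) ^ (2 * m) * (h ^ 2 + h)) B := by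
  classical
  have hh0 : 0 < h := by
    rcases Nat.eq_zero_or_pos h with h0 | h0
    · subst h0
      exact absurd hp.one_lt (by norm_num)
    · exact h0
  obtain ⟨ℓ, e, hℓ, he, hℓe⟩ := hp
  have hℓp : ℓ.Prime := hℓ.nat_prime
  have : Fact ℓ.Prime := ⟨hℓp⟩
  have hcard0 : Nat.card (GaloisField ℓ (2 * e)) = ℓ ^ (2 * e) :=
    GaloisField.card ℓ (2 * e) (by omega)
  have : Finite (GaloisField ℓ (2 * e)) := by
    apply Nat.finite_of_card_ne_zero
    rw [hcard0]
    exact pow_ne_zero _ hℓp.ne_zero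
  let _ : Fintype (GaloisField ℓ (2 * e)) := Fintype.ofFinite _
  have : NeZero (2 * h) := ⟨by omega⟩
  have hcard : Fintype.card (GaloisField ℓ (2 * e)) = (2 * h + 1) ^ 2 := by
    rw [← Nat.card_eq_fintype_card, hcard0, mul_comm, pow_mul, hℓe]
  have hdvd : 2 * (2 * h) ∣ Fintype.card (GaloisField ℓ (2 * e)) - 1 := by
    rw [hcard]
    refine ⟨h + 1, ?_⟩
    have : (2 * h + 1) ^ 2 = 2 * (2 * h) * (h + 1) + 1 := by ring
    rw [this, Nat.add_sub_cancel]
  obtain ⟨f, hf⟩ := exists_log (K := GaloisField ℓ (2 * e)) hdvd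
  obtain ⟨g, hg⟩ := nrm_of_had hH
  have hcz : (Fintype.card (GaloisField ℓ (2 * e)) : ℤ) = (2 * h + 1) ^ 2 := by
    rw [hcard]; push_cast; ring
  have hP : Fintype.card (ℙ (GaloisField ℓ (2 * e)) (Fin (m + 1) → GaloisField ℓ (2 * e))) =
      ∑ i ∈ range (m + 1), (2 * h + 1) ^ (2 * i) := by
    rw [← Nat.card_eq_fintype_card, Projectivization.card_of_finrank (GaloisField ℓ (2 * e)) _
      (by simp : Module.finrank (GaloisField ℓ (2 * e)) (Fin (m + 1) → GaloisField ℓ (2 * e)) = m + 1)]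
    refine Finset.sum_congr rfl fun i _ => ?_
    rw [Nat.card_eq_fintype_card, hcard, ← pow_mul]
  refine design_of_ent (ι := ℙ (GaloisField ℓ (2 * e)) (Fin (m + 1) → GaloisField ℓ (2 * e)) ×
    (Fin (2 * h) × Fin (2 * h))) (ent f g) (fun p q => ent_or f hg p q) (fun p q => ent_symm f g p q)
    _ _ _ ?_ (fun p => ?_) (fun p p' hpp => ?_) ?_ ?_
  · rw [Fintype.card_prod, hP, Fintype.card_prod, Fintype.card_fin]
    ring
  · rw [ent_row f hg, hcz]
    push_cast
    rw [← pow_mul]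
    ring
  · rw [ent_pair f hf hg (by rw [hcard]) p p' hpp, hcz]
    push_cast
    rw [← pow_mul]
    ring
  · have h1 : (2 * h + 1) ^ (2 * m) ≤ ∑ i ∈ range (m + 1), (2 * h + 1) ^ (2 * i) :=
      Finset.single_le_sum (f := fun i => (2 * h + 1) ^ (2 * i)) (fun i _ => Nat.zero_le _)
        (mem_range.2 (Nat.lt_succ_self m))
    have h2 : 0 < (2 * h + 1) ^ (2 * m) := by positivity
    rcases Nat.lt_or_ge h 1 with h3 | h3
    · omega
    · have h4 : 2 * h ^ 2 + h < 4 * h ^ 2 := by nlinarith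
      calc (2 * h + 1) ^ (2 * m) * (2 * h ^ 2 + h) < (2 * h + 1) ^ (2 * m) * (4 * h ^ 2) :=
            Nat.mul_lt_mul_of_pos_left h4 h2
        _ ≤ 4 * h ^ 2 * ∑ i ∈ range (m + 1), (2 * h + 1) ^ (2 * i) := by
            rw [mul_comm]; exact Nat.mul_le_mul_left _ h1
  · positivity

end Pool.Agent.Y342.ION
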