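import Mathlib

/-!
# Sums over projective spaces over finite fields: the classical balanced generalized weighing matrices
-/

set_option autoImplicit false

namespace Pool.Agent.Y342.ION

open Finset
open scoped LinearAlgebra.Projectivization

section fiber

variable {V W : Type} [AddCommGroup V] [AddCommGroup W] [Fintype V] [Fintype W] [DecidableEq W]

theorem card_fiber (f : V →+ W) (hf : Function.Surjective f) (w : W) :
    (univ.filter fun v => f v = w).card = (univ.filter fun v => f v = 0).card := by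
  obtain ⟨v0, hv0⟩ := hf w
  refine Finset.card_bij (fun v _ => v - v0) ?_ ?_ ?_
  · intro v hv
    simp only [mem_filter, mem_univ, true_and] at hv ⊢
    rw [map_sub, hv, hv0, sub_self]
  · intro a _ b _ h
    exact sub_left_injective h
  · intro b hb
    simp only [mem_filter, mem_univ, true_and] at hb ⊢
    exact ⟨b + v0, by rw [map_add, hb, hv0, zero_add], by abel⟩

theorem sum_comp_surj (f : V →+ W) (hf : Function.Surjective f) (g : W → ℤ) :
    (Fintype.card W : ℤ) * ∑ v, g (f v) = (Fintype.card V : ℤ) * ∑ w, g w := by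
  have key : ∀ g : W → ℤ, ∑ v, g (f v) = ((univ.filter fun v => f v = 0).card : ℤ) * ∑ w, g w := by
    intro g
    rw [← Finset.sum_fiberwise_of_maps_to (s := univ) (t := univ) (g := f) (fun _ _ => mem_univ _),
      Finset.mul_sum]
    refine Finset.sum_congr rfl fun w _ => ?_
    rw [Finset.sum_congr rfl (g := fun _ => g w)]
    · rw [Finset.sum_const, card_fiber f hf, nsmul_eq_mul]
    · intro v hv
      rw [(mem_filter.1 hv).2]
  have h1 := key fun _ => 1
  simp only [sum_const, card_univ, nsmul_eq_mul, mul_one] at h1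
  rw [key g, h1]
  ring

end fiber

variable {K : Type} [Field K] [Fintype K] [DecidableEq K] {m : ℕ}

noncomputable instance : Fintype (ℙ K (Fin (m + 1) → K)) := Fintype.ofFinite _

theorem sum_rep (G : (Fin (m + 1) → K) → ℤ) (h0 : G 0 = 0) (hG : ∀ (c : Kˣ) v, G (c • v) = G v) :
    ∑ v, G v = ((Fintype.card K : ℤ) - 1) * ∑ y : ℙ K (Fin (m + 1) → K), G y.rep := by
  classical
  have h1 : ∑ v, G v = ∑ v ∈ univ.filter (fun v => v ≠ 0), G v := by
    rw [Finset.sum_filter]
    refine Finset.sum_congr rfl fun v _ => ?_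
    split_ifs with h
    · rfl
    · rw [not_not.1 h, h0]
  have h2 : ∑ p : ℙ K (Fin (m + 1) → K) × Kˣ, G (p.2 • p.1.rep) =
      ∑ v ∈ univ.filter (fun v => v ≠ 0), G v := by
    refine Finset.sum_bij (fun p _ => p.2 • p.1.rep) ?_ ?_ ?_ ?_
    · rintro ⟨y, c⟩ _
      simp only [mem_filter, mem_univ, true_and]
      intro h
      have := congrArg (fun v => c⁻¹ • v) h
      simp only [inv_smul_smul, smul_zero] at this
      exact y.rep_nonzero this
    · rintro ⟨y, c⟩ _ ⟨y', c'⟩ _ h
      simp only at h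
      have hy : y = y' := by
        rw [← y.mk_rep, ← y'.mk_rep, Projectivization.mk_eq_mk_iff]
        refine ⟨c⁻¹ * c', ?_⟩
        rw [mul_smul, ← h, inv_smul_smul]
      subst hy
      have : c = c' := by
        by_contra hne
        have h3 : ((c : K) - c') • y.rep = 0 := by
          rw [sub_smul]
          exact sub_eq_zero.2 h
        rcases smul_eq_zero.1 h3 with h4 | h4
        · exact hne (Units.ext (sub_eq_zero.1 h4))
        · exact y.rep_nonzero h4
      rw [this]
    · intro v hv
      simp only [mem_filter, mem_univ, true_and] at hv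
      obtain ⟨a, ha⟩ := Projectivization.exists_smul_eq_mk_rep K v hv
      refine ⟨(Projectivization.mk K v hv, a⁻¹), mem_univ _, ?_⟩
      simp only
      rw [← ha, inv_smul_smul]
    · intro p _
      rfl
  rw [h1, ← h2, Fintype.sum_prod_type]
  have h3 : ∀ y : ℙ K (Fin (m + 1) → K), ∑ c : Kˣ, G (c • y.rep) =
      ((Fintype.card K : ℤ) - 1) * G y.rep := by
    intro y
    rw [Finset.sum_congr rfl fun c _ => hG c _, Finset.sum_const, card_univ, Fintype.card_units,
      nsmul_eq_mul, Nat.cast_sub Fintype.card_pos]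
    push_cast
    ring
  rw [Finset.sum_congr rfl fun y _ => h3 y, Finset.mul_sum]

/-- the dot product as an additive map -/
def dotHom (x : Fin (m + 1) → K) : (Fin (m + 1) → K) →+ K where
  toFun v := x ⬝ᵥ v
  map_zero' := by simp
  map_add' u v := by rw [dotProduct_add]

theorem dot_surj {x : Fin (m + 1) → K} (hx : x ≠ 0) : Function.Surjective (dotHom x) := by
  obtain ⟨i, hi⟩ := Function.ne_iff.1 hx
  intro a
  refine ⟨Pi.single i (a / x i), ?_⟩
  change x ⬝ᵥ Pi.single i (a / x i) = a
  rw [dotProduct_single, mul_div_cancel₀ a hi]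

theorem exists_sep {x x' : Fin (m + 1) → K} (hx' : x' ≠ 0) (h : ∀ c : K, x ≠ c • x') :
    ∃ v, x ⬝ᵥ v = 1 ∧ x' ⬝ᵥ v = 0 := by
  obtain ⟨i, hi⟩ := Function.ne_iff.1 hx'
  rw [Pi.zero_apply] at hi
  obtain ⟨k, hk⟩ := Function.ne_iff.1 (h (x i / x' i))
  rw [Pi.smul_apply, smul_eq_mul] at hk
  have hd : x k - x i / x' i * x' k ≠ 0 := sub_ne_zero.2 hk
  refine ⟨(x k - x i / x' i * x' k)⁻¹ • (Pi.single k 1 - Pi.single i (x' k / x' i)), ?_, ?_⟩
  · rw [dotProduct_smul, dotProduct_sub, dotProduct_single, dotProduct_single, smul_eq_mul, mul_one]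
    rw [show x i * (x' k / x' i) = x i / x' i * x' k by field_simp]
    exact inv_mul_cancel₀ hd
  · rw [dotProduct_smul, dotProduct_sub, dotProduct_single, dotProduct_single, mul_one,
      mul_div_cancel₀ _ hi, sub_self, smul_zero]

/-- two dot products as an additive map -/
def dotHom2 (x x' : Fin (m + 1) → K) : (Fin (m + 1) → K) →+ K × K :=
  (dotHom x).prod (dotHom x')

theorem dot2_surj {x x' : Fin (m + 1) → K} (hx : x ≠ 0) (hx' : x' ≠ 0) (h : ∀ c : K, x ≠ c • x') :
    Function.Surjective (dotHom2 x x') := by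
  have h' : ∀ c : K, x' ≠ c • x := by
    intro c hc
    rcases eq_or_ne c 0 with h0 | h0
    · rw [h0, zero_smul] at hc
      exact hx' hc
    · exact h c⁻¹ (by rw [hc, smul_smul, inv_mul_cancel₀ h0, one_smul])
  obtain ⟨v, hv1, hv2⟩ := exists_sep hx' h
  obtain ⟨w, hw1, hw2⟩ := exists_sep hx h'
  rintro ⟨a, b⟩
  refine ⟨a • v + b • w, ?_⟩
  change (x ⬝ᵥ (a • v + b • w), x' ⬝ᵥ (a • v + b • w)) = (a, b)
  rw [dotProduct_add, dotProduct_add, dotProduct_smul, dotProduct_smul, dotProduct_smul,
    dotProduct_smul, hv1, hv2, hw1, hw2]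
  simp

end Pool.Agent.Y342.ION
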