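import Mathlib

/-!
# The signed block shifts of a Bush-type Hadamard matrix
-/

set_option autoImplicit false

namespace Pool.Agent.Y342.ION

open Finset

/-- a normalized Hadamard matrix -/
structure Nrm {N : ℕ} [NeZero N] (h : Fin N → Fin N → ℤ) : Prop where
  sign : ∀ k b, h k b = 1 ∨ h k b = -1
  one : ∀ b, h 0 b = 1
  row : ∀ k l, ∑ b, h k b * h l b = if k = l then (N : ℤ) else 0
  col : ∀ b c, ∑ k, h k b * h k c = if b = c then (N : ℤ) else 0

variable {N : ℕ} [NeZero N]

instance : NeZero (2 * N) := ⟨by have := NeZero.ne N; omega⟩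

theorem posN : 0 < N := Nat.pos_of_ne_zero (NeZero.ne N)

/-- block index -/
def idx (w : ZMod (2 * N)) : Fin N := ⟨w.val % N, Nat.mod_lt _ posN⟩

/-- sign -/
def sg (w : ZMod (2 * N)) : ℤ := if w.val % N = 0 then 1 else if w.val < N then 1 else -1

theorem sg_sg (w : ZMod (2 * N)) : sg w * sg w = 1 := by
  unfold sg; split_ifs <;> norm_num

theorem sg_sign (w : ZMod (2 * N)) : sg w = 1 ∨ sg w = -1 := by
  unfold sg; split_ifs <;> simp

theorem val_k (k : Fin N) : ((k.val : ℕ) : ZMod (2 * N)).val = k.val := by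
  rw [ZMod.val_natCast, Nat.mod_eq_of_lt]
  have := k.2
  omega

theorem val_kN (k : Fin N) : ((N + k.val : ℕ) : ZMod (2 * N)).val = N + k.val := by
  rw [ZMod.val_natCast, Nat.mod_eq_of_lt]
  have := k.2
  omega

theorem idx_k (k : Fin N) : idx ((k.val : ℕ) : ZMod (2 * N)) = k := by
  apply Fin.ext
  simp only [idx, val_k]
  exact Nat.mod_eq_of_lt k.2

theorem idx_kN (k : Fin N) : idx ((N + k.val : ℕ) : ZMod (2 * N)) = k := by
  apply Fin.ext
  simp only [idx, val_kN, Nat.add_mod_left]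
  exact Nat.mod_eq_of_lt k.2

theorem idx_add {w w' r : ZMod (2 * N)} (h : idx w = idx w') : idx (w + r) = idx (w' + r) := by
  apply Fin.ext
  have h1 : w.val % N = w'.val % N := congrArg Fin.val h
  simp only [idx, ZMod.val_add]
  rw [Nat.mod_mod_of_dvd _ (Dvd.intro_left 2 rfl), Nat.mod_mod_of_dvd _ (Dvd.intro_left 2 rfl),
    Nat.add_mod, h1, ← Nat.add_mod]

theorem idx_N (w : ZMod (2 * N)) : idx (w + (N : ZMod (2 * N))) = idx w := by
  apply Fin.ext
  have hN := posN (N := N)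
  have h1 : N % (2 * N) = N := Nat.mod_eq_of_lt (by omega)
  simp only [idx, ZMod.val_add]
  rw [Nat.mod_mod_of_dvd _ (Dvd.intro_left 2 rfl), ZMod.val_natCast, h1, Nat.add_mod_right]

theorem sg_N (w : ZMod (2 * N)) : sg (w + (N : ZMod (2 * N))) = if idx w = 0 then 1 else - sg w := by
  have h0 : (idx w = 0) ↔ w.val % N = 0 := by
    rw [Fin.ext_iff]
    simp [idx]
  have h1 : (w + (N : ZMod (2 * N))).val % N = w.val % N := congrArg Fin.val (idx_N w)
  have hw := w.val_lt
  have hN := posN (N := N)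
  have h2 : (w + (N : ZMod (2 * N))).val = (w.val + N) % (2 * N) := by
    rw [ZMod.val_add, ZMod.val_natCast, Nat.mod_eq_of_lt (by omega : N < 2 * N)]
  by_cases hi : w.val % N = 0
  · rw [if_pos (h0.2 hi), sg, h1, if_pos hi]
  · rw [if_neg (fun h => hi (h0.1 h)), sg, sg, h1, if_neg hi, if_neg hi, h2]
    by_cases hlt : w.val < N
    · rw [if_pos hlt, Nat.mod_eq_of_lt (by omega), if_neg (by omega)]
    · have : (w.val + N) % (2 * N) = w.val - N := by
        rw [show w.val + N = (w.val - N) + 2 * N by omega, Nat.add_mod_right,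
          Nat.mod_eq_of_lt (by omega)]
      rw [if_neg hlt, this, if_pos (by omega), neg_neg]

theorem sum_split (F : ZMod (2 * N) → ℤ) :
    ∑ w, F w = ∑ k : Fin N, (F ((k.val : ℕ) : ZMod (2 * N)) + F ((N + k.val : ℕ) : ZMod (2 * N))) := by
  have h1 : ∑ w, F w = ∑ i ∈ range (2 * N), F ((i : ℕ) : ZMod (2 * N)) := by
    symm
    refine Finset.sum_bij (fun i _ => ((i : ℕ) : ZMod (2 * N))) ?_ ?_ ?_ ?_
    · intro i _
      exact mem_univ _
    · intro a ha b hb h
      have h2 := congrArg ZMod.val h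
      rw [ZMod.val_natCast, ZMod.val_natCast, Nat.mod_eq_of_lt (mem_range.1 ha),
        Nat.mod_eq_of_lt (mem_range.1 hb)] at h2
      exact h2
    · intro w _
      exact ⟨w.val, mem_range.2 w.val_lt, ZMod.natCast_zmod_val w⟩
    · intro i _
      rfl
  have h2 : ∀ G : ℕ → ℤ, ∑ i ∈ range (2 * N), G i = ∑ k : Fin N, (G k.val + G (N + k.val)) := by
    intro G
    rw [two_mul, Finset.sum_range_add, Finset.sum_range, Finset.sum_range, ← Finset.sum_add_distrib]
  rw [h1, h2 fun i => F ((i : ℕ) : ZMod (2 * N))]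

theorem sum_half (F : ZMod (2 * N) → ℤ) (hF : ∀ w, F (w + (N : ZMod (2 * N))) = F w)
    (α : ZMod (2 * N)) : 2 * ∑ c : Fin N, F (((c.val : ℕ) : ZMod (2 * N)) + α) = ∑ w, F w := by
  rw [← Equiv.sum_comp (Equiv.addRight α) F, sum_split, Finset.mul_sum]
  refine Finset.sum_congr rfl fun c _ => ?_
  simp only [Equiv.coe_addRight]
  have : ((N + c.val : ℕ) : ZMod (2 * N)) + α = ((c.val : ℕ) : ZMod (2 * N)) + α + (N : ZMod (2 * N)) := by
    push_cast
    ring
  rw [this, hF]
  ring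

/-- the entries of the signed block shifts -/
def τ (h : Fin N → Fin N → ℤ) (w : ZMod (2 * N)) (b d : Fin N) : ℤ := sg w * h (idx w) b * h (idx w) d

variable {h : Fin N → Fin N → ℤ}

theorem τ_symm (w : ZMod (2 * N)) (b d : Fin N) : τ h w b d = τ h w d b := by
  unfold τ; ring

theorem τ_sign (hh : Nrm h) (w : ZMod (2 * N)) (b d : Fin N) : τ h w b d = 1 ∨ τ h w b d = -1 := by
  unfold τ
  rcases sg_sign w with h1 | h1 <;> rcases hh.sign (idx w) b with h2 | h2 <;>
    rcases hh.sign (idx w) d with h3 | h3 <;> rw [h1, h2, h3] <;> norm_num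

theorem τ_sum (hh : Nrm h) (b d : Fin N) : ∑ w, τ h w b d = 2 := by
  rw [sum_split]
  have h1 : ∀ k : Fin N, τ h ((k.val : ℕ) : ZMod (2 * N)) b d + τ h ((N + k.val : ℕ) : ZMod (2 * N)) b d =
      if k = 0 then 2 else 0 := by
    intro k
    unfold τ sg
    rw [idx_k, idx_kN, val_k, val_kN, Nat.add_mod_left, Nat.mod_eq_of_lt k.2]
    by_cases hk : k = 0
    · subst hk
      simp [hh.one]
    · have hk' : k.val ≠ 0 := fun h' => hk (Fin.ext h')
      rw [if_neg hk', if_pos k.2, if_neg hk', if_neg (by omega), if_neg hk]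
      ring
  rw [Finset.sum_congr rfl fun k _ => h1 k]
  simp

theorem τ_row (hh : Nrm h) (w : ZMod (2 * N)) (b : Fin N) :
    ∑ d, τ h w b d = if idx w = 0 then (N : ℤ) else 0 := by
  have h1 : ∑ d, τ h w b d = sg w * h (idx w) b * ∑ d, h (idx w) d * h 0 d := by
    rw [Finset.mul_sum]
    refine Finset.sum_congr rfl fun d _ => ?_
    rw [hh.one]
    unfold τ
    ring
  rw [h1, hh.row]
  by_cases h0 : idx w = 0
  · have h2 : w.val % N = 0 := by
      have := congrArg Fin.val h0
      simpa [idx] using this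
    rw [if_pos h0, h0, hh.one, sg, if_pos h2]
    ring
  · rw [if_neg h0, mul_zero]

/-- inner products of rows of two blocks -/
def g (h : Fin N → Fin N → ℤ) (w w' : ZMod (2 * N)) (b b' : Fin N) : ℤ := ∑ d, τ h w b d * τ h w' b' d

theorem g_eq (hh : Nrm h) (w w' : ZMod (2 * N)) (b b' : Fin N) :
    g h w w' b b' = if idx w = idx w' then sg w * sg w' * h (idx w) b * h (idx w) b' * N else 0 := by
  have h1 : g h w w' b b' = sg w * sg w' * h (idx w) b * h (idx w') b' *
      ∑ d, h (idx w) d * h (idx w') d := by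
    rw [Finset.mul_sum]
    refine Finset.sum_congr rfl fun d _ => ?_
    unfold τ
    ring
  rw [h1, hh.row]
  by_cases h0 : idx w = idx w'
  · rw [if_pos h0, if_pos h0, ← h0]
  · rw [if_neg h0, if_neg h0, mul_zero]

theorem g_N (hh : Nrm h) (w w' : ZMod (2 * N)) (b b' : Fin N) :
    g h (w + (N : ZMod (2 * N))) (w' + (N : ZMod (2 * N))) b b' = g h w w' b b' := by
  rw [g_eq hh, g_eq hh, idx_N, idx_N, sg_N, sg_N]
  by_cases h0 : idx w = idx w'
  · rw [if_pos h0, if_pos h0, ← h0]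
    by_cases h1 : idx w = 0
    · have h2 : w.val % N = 0 := by
        have := congrArg Fin.val h1
        simpa [idx] using this
      have h3 : w'.val % N = 0 := by
        have := congrArg Fin.val (h0.symm.trans h1)
        simpa [idx] using this
      simp only [if_pos h1, sg, if_pos h2, if_pos h3]
    · simp only [if_neg h1]
      ring
  · rw [if_neg h0, if_neg h0]

/-- sums of inner products along a shift -/
def Γ (h : Fin N → Fin N → ℤ) (r : ZMod (2 * N)) (b b' : Fin N) : ℤ := ∑ w, g h w (w + r) b b'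

theorem Γ_zero (hh : Nrm h) (b b' : Fin N) :
    Γ h 0 b b' = if b = b' then 2 * (N : ℤ) ^ 2 else 0 := by
  unfold Γ
  have h1 : ∀ w : ZMod (2 * N), g h w (w + 0) b b' = N * (h (idx w) b * h (idx w) b') := by
    intro w
    rw [add_zero, g_eq hh, if_pos rfl, sg_sg]
    ring
  rw [Finset.sum_congr rfl fun w _ => h1 w, ← Finset.mul_sum, sum_split]
  simp only [idx_k, idx_kN]
  rw [Finset.sum_add_distrib, hh.col]
  split_ifs <;> ring

theorem Γ_nz (hh : Nrm h) {r : ZMod (2 * N)} (hr : r.val % N ≠ 0) (b b' : Fin N) : Γ h r b b' = 0 := by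
  unfold Γ
  refine Finset.sum_eq_zero fun w _ => ?_
  rw [g_eq hh, if_neg]
  intro h1
  apply hr
  have h2 : w.val % N = (w + r).val % N := congrArg Fin.val h1
  rw [ZMod.val_add, Nat.mod_mod_of_dvd _ (Dvd.intro_left 2 rfl)] at h2
  have h3 : w.val + 0 ≡ w.val + r.val [MOD N] := h2
  have h4 := Nat.ModEq.add_left_cancel' _ h3
  have h5 : r.val % N = 0 % N := h4.symm
  rw [h5, Nat.zero_mod]

theorem idx_add_zero {w r : ZMod (2 * N)} (hr : r.val % N = 0) : idx (w + r) = idx w := by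
  apply Fin.ext
  simp only [idx, ZMod.val_add]
  rw [Nat.mod_mod_of_dvd _ (Dvd.intro_left 2 rfl), Nat.add_mod, hr, add_zero, Nat.mod_mod]

theorem Γ_sum (hh : Nrm h) (b b' : Fin N) : ∑ r, Γ h r b b' = 4 * N := by
  unfold Γ
  rw [Finset.sum_comm]
  have h1 : ∀ w : ZMod (2 * N), ∑ r, g h w (w + r) b b' = ∑ w', g h w w' b b' := fun w =>
    Equiv.sum_comp (Equiv.addLeft w) (fun w' => g h w w' b b')
  rw [Finset.sum_congr rfl fun w _ => h1 w]
  unfold g
  have h2 : ∀ w : ZMod (2 * N), ∑ w' : ZMod (2 * N), ∑ d, τ h w b d * τ h w' b' d =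
      ∑ d, 2 * τ h w b d := by
    intro w
    rw [Finset.sum_comm]
    refine Finset.sum_congr rfl fun d _ => ?_
    rw [← Finset.mul_sum, τ_sum hh]
    ring
  rw [Finset.sum_congr rfl fun w _ => h2 w, Finset.sum_comm]
  have h3 : ∀ d : Fin N, ∑ w : ZMod (2 * N), 2 * τ h w b d = 4 := by
    intro d
    rw [← Finset.mul_sum, τ_sum hh]
    norm_num
  rw [Finset.sum_congr rfl fun d _ => h3 d, Finset.sum_const, card_univ, Fintype.card_fin,
    nsmul_eq_mul]
  ring

theorem inner_eq (hh : Nrm h) (α α' : ZMod (2 * N)) (b b' : Fin N) :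
    2 * ∑ c : Fin N, ∑ d, τ h (((c.val : ℕ) : ZMod (2 * N)) + α) b d *
      τ h (((c.val : ℕ) : ZMod (2 * N)) + α') b' d = Γ h (α' - α) b b' := by
  have h1 := sum_half (fun w => g h w (w + (α' - α)) b b') (fun w => by
    have : w + (N : ZMod (2 * N)) + (α' - α) = w + (α' - α) + (N : ZMod (2 * N)) := by ring
    rw [this, g_N hh]) α
  unfold Γ
  rw [← h1]
  congr 1
  refine Finset.sum_congr rfl fun c _ => ?_
  have : ((c.val : ℕ) : ZMod (2 * N)) + α + (α' - α) = ((c.val : ℕ) : ZMod (2 * N)) + α' := by ring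
  simp only [this]
  rfl

theorem row_eq (hh : Nrm h) (α : ZMod (2 * N)) (b : Fin N) :
    ∑ c : Fin N, ∑ d, τ h (((c.val : ℕ) : ZMod (2 * N)) + α) b d = N := by
  have h1 := sum_half (fun w => ∑ d, τ h w b d) (fun w => by
    rw [τ_row hh, τ_row hh, idx_N]) α
  have h2 : ∑ w : ZMod (2 * N), ∑ d, τ h w b d = 2 * N := by
    rw [Finset.sum_congr rfl fun w _ => τ_row hh w b, sum_split]
    simp only [idx_k, idx_kN]
    rw [Finset.sum_add_distrib]
    simp
    ring
  rw [h2] at h1
  linarith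

end Pool.Agent.Y342.ION
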