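import Pool.Agent.Y342.ION.Unif
import Pool.Agent.Y342.ION.Tau
import Pool.Agent.H114R2.Design

/-!
# Symmetric designs from balanced generalized weighing matrices and Bush-type Hadamard matrices
-/

set_option autoImplicit false

namespace Pool.Agent.Y342.ION

open Finset
open scoped LinearAlgebra.Projectivization
open Pool.Agent.H114R2 (IsSymDesign)

theorem design_of_ent {ι : Type} [Fintype ι] [DecidableEq ι] (E : ι → ι → ℤ)
    (hE : ∀ p q, E p q = 0 ∨ E p q = 2) (hsym : ∀ p q, E p q = E q p) (v k l : ℕ)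
    (hv : Fintype.card ι = v) (hrow : ∀ p, ∑ q, E p q = 2 * k)
    (hpair : ∀ p p', p ≠ p' → ∑ q, E p q * E p' q = 4 * l) (hk : k < v) (hl : 0 < l) :
    ∃ B : Fin v → Finset (Fin v), IsSymDesign v k l B := by
  let e : ι ≃ Fin v := Fintype.equivFinOfCardEq hv
  have c1 : ∀ p, (univ.filter (fun j : Fin v => E p (e.symm j) = 2)).card = k := by
    intro p
    have h1 : (2 : ℤ) * ((univ.filter (fun j : Fin v => E p (e.symm j) = 2)).card : ℤ) = 2 * k := by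
      rw [← hrow p, ← e.symm.sum_comp, Finset.card_filter]
      push_cast
      rw [Finset.mul_sum]
      refine Finset.sum_congr rfl fun j _ => ?_
      rcases hE p (e.symm j) with h | h <;> simp [h]
    have h2 := mul_left_cancel₀ (by norm_num : (2 : ℤ) ≠ 0) h1
    exact_mod_cast h2
  have c2 : ∀ p p', p ≠ p' →
      (univ.filter (fun j : Fin v => E p (e.symm j) = 2 ∧ E p' (e.symm j) = 2)).card = l := by
    intro p p' hpp
    have h1 : (4 : ℤ) * ((univ.filter (fun j : Fin v => E p (e.symm j) = 2 ∧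
        E p' (e.symm j) = 2)).card : ℤ) = 4 * l := by
      rw [← hpair p p' hpp, ← e.symm.sum_comp, Finset.card_filter]
      push_cast
      rw [Finset.mul_sum]
      refine Finset.sum_congr rfl fun j _ => ?_
      rcases hE p (e.symm j) with h | h <;> rcases hE p' (e.symm j) with h' | h' <;> simp [h, h']
    have h2 := mul_left_cancel₀ (by norm_num : (4 : ℤ) ≠ 0) h1
    exact_mod_cast h2
  refine ⟨fun i => univ.filter (fun j => E (e.symm i) (e.symm j) = 2), hk, hl, fun i => c1 _,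
    fun x => ?_, fun x y hxy => ?_, fun i j hij => ?_⟩
  · have h1 : ∀ i, (x ∈ univ.filter (fun j : Fin v => E (e.symm i) (e.symm j) = 2)) ↔
        E (e.symm x) (e.symm i) = 2 := by
      intro i
      rw [mem_filter, hsym]
      simp
    rw [Finset.filter_congr fun i _ => h1 i]
    exact c1 _
  · have h1 : ∀ i, (x ∈ univ.filter (fun j : Fin v => E (e.symm i) (e.symm j) = 2) ∧
        y ∈ univ.filter (fun j : Fin v => E (e.symm i) (e.symm j) = 2)) ↔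
        (E (e.symm x) (e.symm i) = 2 ∧ E (e.symm y) (e.symm i) = 2) := by
      intro i
      rw [mem_filter, mem_filter, hsym (e.symm i) (e.symm x), hsym (e.symm i) (e.symm y)]
      simp
    rw [Finset.filter_congr fun i _ => h1 i]
    exact c2 _ _ fun h => hxy (e.symm.injective h)
  · rw [← Finset.filter_and]
    exact c2 _ _ fun h => hij (e.symm.injective h)

variable {K : Type} [Field K] [Fintype K] [DecidableEq K] {m N : ℕ} [NeZero N]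

/-- the incidence matrix, times two -/
noncomputable def ent (f : Additive Kˣ →+ ZMod (2 * N)) (h : Fin N → Fin N → ℤ)
    (p q : ℙ K (Fin (m + 1) → K) × (Fin N × Fin N)) : ℤ :=
  if p.1.rep ⬝ᵥ q.1.rep ≠ 0 then
    1 + τ h (((q.2.1.val : ℕ) : ZMod (2 * N)) +
      (((p.2.1.val : ℕ) : ZMod (2 * N)) - lg f (p.1.rep ⬝ᵥ q.1.rep))) p.2.2 q.2.2
  else 0

theorem ent_or (f : Additive Kˣ →+ ZMod (2 * N)) {h : Fin N → Fin N → ℤ} (hh : Nrm h)
    (p q : ℙ K (Fin (m + 1) → K) × (Fin N × Fin N)) : ent f h p q = 0 ∨ ent f h p q = 2 := by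
  unfold ent
  split_ifs
  · rcases τ_sign hh (((q.2.1.val : ℕ) : ZMod (2 * N)) +
      (((p.2.1.val : ℕ) : ZMod (2 * N)) - lg f (p.1.rep ⬝ᵥ q.1.rep))) p.2.2 q.2.2 with h1 | h1 <;>
      rw [h1] <;> norm_num
  · left; rfl

theorem ent_symm (f : Additive Kˣ →+ ZMod (2 * N)) (h : Fin N → Fin N → ℤ)
    (p q : ℙ K (Fin (m + 1) → K) × (Fin N × Fin N)) : ent f h p q = ent f h q p := by
  unfold ent
  rw [dotProduct_comm q.1.rep p.1.rep, τ_symm]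
  have : (((q.2.1.val : ℕ) : ZMod (2 * N)) +
      (((p.2.1.val : ℕ) : ZMod (2 * N)) - lg f (p.1.rep ⬝ᵥ q.1.rep))) =
      (((p.2.1.val : ℕ) : ZMod (2 * N)) +
      (((q.2.1.val : ℕ) : ZMod (2 * N)) - lg f (p.1.rep ⬝ᵥ q.1.rep))) := by ring
  rw [this]

theorem ent_row (f : Additive Kˣ →+ ZMod (2 * N)) {h : Fin N → Fin N → ℤ} (hh : Nrm h)
    (p : ℙ K (Fin (m + 1) → K) × (Fin N × Fin N)) :
    ∑ q, ent f h p q = (Fintype.card K : ℤ) ^ m * ((N : ℤ) * (N + 1)) := by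
  rw [Fintype.sum_prod_type]
  have h1 : ∀ y : ℙ K (Fin (m + 1) → K), ∑ q : Fin N × Fin N, ent f h p (y, q) =
      (if p.1.rep ⬝ᵥ y.rep ≠ 0 then (1 : ℤ) else 0) * ((N : ℤ) * (N + 1)) := by
    intro y
    unfold ent
    simp only
    split_ifs with h0
    · rw [Fintype.sum_prod_type]
      simp only [Finset.sum_add_distrib, Finset.sum_const, card_univ, Fintype.card_fin, nsmul_eq_mul]
      rw [row_eq hh]
      ring
    · simp
  rw [Finset.sum_congr rfl fun y _ => h1 y, ← Finset.sum_mul, card_one]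

theorem ent_block (f : Additive Kˣ →+ ZMod (2 * N)) {h : Fin N → Fin N → ℤ} (hh : Nrm h)
    (p p' : ℙ K (Fin (m + 1) → K) × (Fin N × Fin N)) (y : ℙ K (Fin (m + 1) → K)) :
    2 * ∑ q : Fin N × Fin N, ent f h p (y, q) * ent f h p' (y, q) =
      if p.1.rep ⬝ᵥ y.rep ≠ 0 ∧ p'.1.rep ⬝ᵥ y.rep ≠ 0 then
        (2 * (N : ℤ) ^ 2 + 4 * N) + Γ h (((p'.2.1.val : ℕ) : ZMod (2 * N)) -
          ((p.2.1.val : ℕ) : ZMod (2 * N)) + lg f (p.1.rep ⬝ᵥ y.rep) - lg f (p'.1.rep ⬝ᵥ y.rep))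
          p.2.2 p'.2.2
      else 0 := by
  unfold ent
  simp only
  by_cases h1 : p.1.rep ⬝ᵥ y.rep = 0
  · simp [h1]
  by_cases h2 : p'.1.rep ⬝ᵥ y.rep = 0
  · simp [h2]
  rw [if_pos ⟨h1, h2⟩]
  simp only [ne_eq, h1, h2, not_false_eq_true, if_true]
  have h3 := inner_eq hh (((p.2.1.val : ℕ) : ZMod (2 * N)) - lg f (p.1.rep ⬝ᵥ y.rep))
    (((p'.2.1.val : ℕ) : ZMod (2 * N)) - lg f (p'.1.rep ⬝ᵥ y.rep)) p.2.2 p'.2.2
  have h4 : (((p'.2.1.val : ℕ) : ZMod (2 * N)) - lg f (p'.1.rep ⬝ᵥ y.rep)) -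
      (((p.2.1.val : ℕ) : ZMod (2 * N)) - lg f (p.1.rep ⬝ᵥ y.rep)) =
      ((p'.2.1.val : ℕ) : ZMod (2 * N)) - ((p.2.1.val : ℕ) : ZMod (2 * N)) +
        lg f (p.1.rep ⬝ᵥ y.rep) - lg f (p'.1.rep ⬝ᵥ y.rep) := by ring
  rw [h4] at h3
  rw [← h3, Fintype.sum_prod_type]
  have h5 := row_eq hh (((p.2.1.val : ℕ) : ZMod (2 * N)) - lg f (p.1.rep ⬝ᵥ y.rep)) p.2.2
  have h6 := row_eq hh (((p'.2.1.val : ℕ) : ZMod (2 * N)) - lg f (p'.1.rep ⬝ᵥ y.rep)) p'.2.2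
  have h7 : ∀ (A B : Fin N → Fin N → ℤ), ∑ c, ∑ d, (1 + A c d) * (1 + B c d) =
      (N : ℤ) ^ 2 + ∑ c, ∑ d, A c d + ∑ c, ∑ d, B c d + ∑ c, ∑ d, A c d * B c d := by
    intro A B
    have : ∀ c d, (1 + A c d) * (1 + B c d) = 1 + A c d + B c d + A c d * B c d := by
      intro c d; ring
    simp only [this, Finset.sum_add_distrib, Finset.sum_const, card_univ, Fintype.card_fin,
      nsmul_eq_mul]
    ring
  rw [h7, h5, h6]
  ring

theorem ent_pair (f : Additive Kˣ →+ ZMod (2 * N)) (hf : Function.Surjective f)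
    {h : Fin N → Fin N → ℤ} (hh : Nrm h) (hq : Fintype.card K = (N + 1) ^ 2)
    (p p' : ℙ K (Fin (m + 1) → K) × (Fin N × Fin N)) (hpp : p ≠ p') :
    ∑ q, ent f h p q * ent f h p' q = (Fintype.card K : ℤ) ^ m * ((N : ℤ) * (N + 2)) := by
  have hN : (0 : ℤ) < N := by exact_mod_cast posN (N := N)
  have hqz : (Fintype.card K : ℤ) = (N + 1) ^ 2 := by rw [hq]; push_cast; ring
  have hq0 : (0 : ℤ) < Fintype.card K := by exact_mod_cast Fintype.card_pos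
  have h1 : 2 * ∑ q, ent f h p q * ent f h p' q = ∑ y : ℙ K (Fin (m + 1) → K),
      (if p.1.rep ⬝ᵥ y.rep ≠ 0 ∧ p'.1.rep ⬝ᵥ y.rep ≠ 0 then
        (2 * (N : ℤ) ^ 2 + 4 * N) + Γ h (((p'.2.1.val : ℕ) : ZMod (2 * N)) -
          ((p.2.1.val : ℕ) : ZMod (2 * N)) + lg f (p.1.rep ⬝ᵥ y.rep) - lg f (p'.1.rep ⬝ᵥ y.rep))
          p.2.2 p'.2.2
      else 0) := by
    rw [Fintype.sum_prod_type, Finset.mul_sum]
    exact Finset.sum_congr rfl fun y _ => ent_block f hh p p' y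
  apply mul_left_cancel₀ (by norm_num : (2 : ℤ) ≠ 0)
  rw [h1]
  by_cases hx : p.1 = p'.1
  · have h2 : Γ h (((p'.2.1.val : ℕ) : ZMod (2 * N)) - ((p.2.1.val : ℕ) : ZMod (2 * N)))
        p.2.2 p'.2.2 = 0 := by
      by_cases ha : p.2.1 = p'.2.1
      · rw [ha, sub_self, Γ_zero hh, if_neg]
        intro hb
        exact hpp (Prod.ext hx (Prod.ext ha hb))
      · apply Γ_nz hh
        intro h0
        apply ha
        have h3 := idx_add_zero (w := ((p.2.1.val : ℕ) : ZMod (2 * N))) h0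
        rw [add_sub_cancel, idx_k, idx_k] at h3
        exact h3.symm
    have h3 : ∀ y : ℙ K (Fin (m + 1) → K), (if p.1.rep ⬝ᵥ y.rep ≠ 0 ∧ p'.1.rep ⬝ᵥ y.rep ≠ 0 then
        (2 * (N : ℤ) ^ 2 + 4 * N) + Γ h (((p'.2.1.val : ℕ) : ZMod (2 * N)) -
          ((p.2.1.val : ℕ) : ZMod (2 * N)) + lg f (p.1.rep ⬝ᵥ y.rep) - lg f (p'.1.rep ⬝ᵥ y.rep))
          p.2.2 p'.2.2
      else 0) = (if p.1.rep ⬝ᵥ y.rep ≠ 0 then (1 : ℤ) else 0) * (2 * (N : ℤ) ^ 2 + 4 * N) := by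
      intro y
      rw [← hx, add_sub_cancel_right, h2]
      by_cases h4 : p.1.rep ⬝ᵥ y.rep = 0
      · simp [h4]
      · simp [h4]
    rw [Finset.sum_congr rfl fun y _ => h3 y, ← Finset.sum_mul, card_one]
    ring
  · have u1 := unif f hf hx (fun r => Γ h r p.2.2 p'.2.2) (((p'.2.1.val : ℕ) : ZMod (2 * N)) -
      ((p.2.1.val : ℕ) : ZMod (2 * N)))
    have u2 := unif f hf hx (fun _ => (1 : ℤ)) 0
    rw [Γ_sum hh] at u1
    rw [Finset.sum_const, card_univ, ZMod.card, nsmul_eq_mul, mul_one] at u2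
    have h3 : ∑ y : ℙ K (Fin (m + 1) → K), (if p.1.rep ⬝ᵥ y.rep ≠ 0 ∧ p'.1.rep ⬝ᵥ y.rep ≠ 0 then
        (2 * (N : ℤ) ^ 2 + 4 * N) + Γ h (((p'.2.1.val : ℕ) : ZMod (2 * N)) -
          ((p.2.1.val : ℕ) : ZMod (2 * N)) + lg f (p.1.rep ⬝ᵥ y.rep) - lg f (p'.1.rep ⬝ᵥ y.rep))
          p.2.2 p'.2.2
      else 0) = (2 * (N : ℤ) ^ 2 + 4 * N) * (∑ y : ℙ K (Fin (m + 1) → K),
        (if p.1.rep ⬝ᵥ y.rep ≠ 0 ∧ p'.1.rep ⬝ᵥ y.rep ≠ 0 then (1 : ℤ) else 0)) +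
        ∑ y : ℙ K (Fin (m + 1) → K), (if p.1.rep ⬝ᵥ y.rep ≠ 0 ∧ p'.1.rep ⬝ᵥ y.rep ≠ 0 then
          Γ h (((p'.2.1.val : ℕ) : ZMod (2 * N)) - ((p.2.1.val : ℕ) : ZMod (2 * N)) +
            lg f (p.1.rep ⬝ᵥ y.rep) - lg f (p'.1.rep ⬝ᵥ y.rep)) p.2.2 p'.2.2 else 0) := by
      rw [Finset.mul_sum, ← Finset.sum_add_distrib]
      refine Finset.sum_congr rfl fun y _ => ?_
      split_ifs <;> ring
    rw [h3]
    obtain ⟨S1, hS1⟩ : ∃ S1 : ℤ, S1 = ∑ y : ℙ K (Fin (m + 1) → K),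
        (if p.1.rep ⬝ᵥ y.rep ≠ 0 ∧ p'.1.rep ⬝ᵥ y.rep ≠ 0 then (1 : ℤ) else 0) := ⟨_, rfl⟩
    obtain ⟨S2, hS2⟩ : ∃ S2 : ℤ, S2 = ∑ y : ℙ K (Fin (m + 1) → K),
        (if p.1.rep ⬝ᵥ y.rep ≠ 0 ∧ p'.1.rep ⬝ᵥ y.rep ≠ 0 then
          Γ h (((p'.2.1.val : ℕ) : ZMod (2 * N)) - ((p.2.1.val : ℕ) : ZMod (2 * N)) +
            lg f (p.1.rep ⬝ᵥ y.rep) - lg f (p'.1.rep ⬝ᵥ y.rep)) p.2.2 p'.2.2 else 0) := ⟨_, rfl⟩
    rw [← hS1] at u2 ⊢
    rw [← hS2] at u1 ⊢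
    push_cast at u1 u2
    have h4 : (2 * (N : ℤ) * (Fintype.card K : ℤ) ^ 2) ≠ 0 := by positivity
    apply mul_left_cancel₀ h4
    have e1 : (Fintype.card K : ℤ) ^ (m + 1) * ((Fintype.card K : ℤ) - 1) * (4 * N) +
        (2 * (N : ℤ) ^ 2 + 4 * N) * ((Fintype.card K : ℤ) ^ (m + 1) * ((Fintype.card K : ℤ) - 1) *
          (2 * N)) = 2 * N * (Fintype.card K : ℤ) ^ 2 *
        (2 * ((Fintype.card K : ℤ) ^ m * ((N : ℤ) * (N + 2)))) := by
      have e2 : (Fintype.card K : ℤ) - 1 = N * (N + 2) := by rw [hqz]; ring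
      rw [e2, pow_succ]
      have e3 : (2 * (N : ℤ) ^ 2 + 4 * N + 2) = 2 * (Fintype.card K : ℤ) := by rw [hqz]; ring
      linear_combination ((Fintype.card K : ℤ) ^ m * (Fintype.card K : ℤ) * (N * (N + 2)) * (2 * N)) * e3
    rw [← e1]
    linear_combination (2 * (N : ℤ) ^ 2 + 4 * N) * u2 + u1

end Pool.Agent.Y342.ION
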