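import Pool.Agent.Y342.ION.Bgw

/-!
# Uniform distribution of the discrete logarithm of the ratio of two coordinates
-/

set_option autoImplicit false

namespace Pool.Agent.Y342.ION

open Finset
open scoped LinearAlgebra.Projectivization

variable {K : Type} [Field K] [Fintype K] [DecidableEq K] {m d : ℕ}

theorem exists_log [NeZero d] (hd : d ∣ Fintype.card K - 1) :
    ∃ f : Additive Kˣ →+ ZMod d, Function.Surjective f := by
  have hcard : Nat.card Kˣ = Fintype.card K - 1 := by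
    rw [Nat.card_eq_fintype_card, Fintype.card_units]
  let e := zmodCyclicMulEquiv (G := Kˣ) inferInstance
  have hd' : d ∣ Nat.card Kˣ := by rw [hcard]; exact hd
  let f1 : Additive Kˣ →+ ZMod (Nat.card Kˣ) := (MulEquiv.toAdditive e.symm).toAddMonoidHom
  refine ⟨(ZMod.castHom hd' (ZMod d)).toAddMonoidHom.comp
    (AddMonoidHom.comp (AddEquiv.refl _).toAddMonoidHom f1), ?_⟩
  have h1 : Function.Surjective (ZMod.castHom hd' (ZMod d)) := ZMod.castHom_surjective hd'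
  have h2 : Function.Surjective f1 := (MulEquiv.toAdditive e.symm).surjective
  intro r
  obtain ⟨a, ha⟩ := h1 r
  obtain ⟨b, hb⟩ := h2 a
  refine ⟨b, ?_⟩
  change ZMod.castHom hd' (ZMod d) (f1 b) = r
  rw [hb, ha]

/-- the discrete logarithm, `0` at `0` -/
noncomputable def lg (f : Additive Kˣ →+ ZMod d) (a : K) : ZMod d :=
  if h : a = 0 then 0 else f (Additive.ofMul (Units.mk0 a h))

theorem lg_unit (f : Additive Kˣ →+ ZMod d) (u : Kˣ) : lg f (u : K) = f (Additive.ofMul u) := by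
  rw [lg, dif_neg u.ne_zero, Units.mk0_val]

theorem lg_mul (f : Additive Kˣ →+ ZMod d) (u : Kˣ) {a : K} (ha : a ≠ 0) :
    lg f ((u : K) * a) = f (Additive.ofMul u) + lg f a := by
  have : (u : K) * a = ((u * Units.mk0 a ha : Kˣ) : K) := by simp
  rw [this, lg_unit, ofMul_mul, map_add, lg, dif_neg ha]

theorem sum_nonzero (g : K → ℤ) : ∑ a : K, (if a ≠ 0 then g a else 0) = ∑ u : Kˣ, g u := by
  rw [← Finset.sum_filter]
  symm
  refine Finset.sum_bij (fun u _ => (u : K)) ?_ ?_ ?_ ?_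
  · intro u _
    simp
  · intro a _ b _ h
    exact Units.ext h
  · intro b hb
    simp only [mem_filter, mem_univ, true_and] at hb
    exact ⟨Units.mk0 b hb, mem_univ _, rfl⟩
  · intro u _
    rfl

theorem sum_log [NeZero d] (f : Additive Kˣ →+ ZMod d) (hf : Function.Surjective f)
    (Γ : ZMod d → ℤ) (c : ZMod d) :
    (d : ℤ) * ∑ u : Kˣ, Γ (c + f (Additive.ofMul u)) =
      ((Fintype.card K : ℤ) - 1) * ∑ r, Γ r := by
  have h1 := sum_comp_surj f hf (fun r => Γ (c + r))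
  rw [ZMod.card] at h1
  have h2 : ∑ v : Additive Kˣ, Γ (c + f v) = ∑ u : Kˣ, Γ (c + f (Additive.ofMul u)) :=
    (Equiv.sum_comp (Additive.ofMul (α := Kˣ)) fun v => Γ (c + f v)).symm
  have h3 : ∑ w : ZMod d, Γ (c + w) = ∑ r, Γ r := Equiv.sum_comp (Equiv.addLeft c) Γ
  have h4 : (Fintype.card (Additive Kˣ) : ℤ) = (Fintype.card K : ℤ) - 1 := by
    rw [Fintype.card_congr (Additive.toMul (α := Kˣ)), Fintype.card_units,
      Nat.cast_sub Fintype.card_pos]
    push_cast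
    ring
  rw [h2, h3, h4] at h1
  exact h1

variable (f : Additive Kˣ →+ ZMod d)

theorem rep_indep {x x' : ℙ K (Fin (m + 1) → K)} (h : x ≠ x') (c : K) : x.rep ≠ c • x'.rep := by
  intro hc
  have hc0 : c ≠ 0 := by
    rintro rfl
    rw [zero_smul] at hc
    exact x.rep_nonzero hc
  apply h
  rw [← x.mk_rep, ← x'.mk_rep, Projectivization.mk_eq_mk_iff]
  exact ⟨Units.mk0 c hc0, hc.symm⟩

theorem card_one (x : ℙ K (Fin (m + 1) → K)) :
    ∑ y : ℙ K (Fin (m + 1) → K), (if x.rep ⬝ᵥ y.rep ≠ 0 then (1 : ℤ) else 0) =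
      (Fintype.card K : ℤ) ^ m := by
  have hq : (1 : ℤ) < Fintype.card K := by exact_mod_cast Fintype.one_lt_card
  have h1 := sum_rep (K := K) (m := m) (fun v => if x.rep ⬝ᵥ v ≠ 0 then (1 : ℤ) else 0) (by simp)
    (by
      intro c v
      have : (x.rep ⬝ᵥ (c • v) ≠ 0) ↔ (x.rep ⬝ᵥ v ≠ 0) := by
        rw [Units.smul_def, dotProduct_smul, smul_eq_mul]
        simp
      simp only [this])
  have h2 := sum_comp_surj (dotHom x.rep) (dot_surj x.rep_nonzero)
    (fun a => if a ≠ 0 then (1 : ℤ) else 0)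
  rw [sum_nonzero (fun _ => (1 : ℤ)), Finset.sum_const, card_univ, Fintype.card_units, nsmul_eq_mul,
    mul_one, Nat.cast_sub Fintype.card_pos, Fintype.card_fun, Fintype.card_fin] at h2
  change (Fintype.card K : ℤ) * ∑ v, (if x.rep ⬝ᵥ v ≠ 0 then (1 : ℤ) else 0) = _ at h2
  rw [h1] at h2
  push_cast at h2
  have h3 : ((Fintype.card K : ℤ) * ((Fintype.card K : ℤ) - 1)) ≠ 0 :=
    mul_ne_zero (by omega) (by omega)
  apply mul_left_cancel₀ h3
  rw [mul_assoc, h2]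
  ring

theorem unif [NeZero d] (hf : Function.Surjective f) {x x' : ℙ K (Fin (m + 1) → K)} (h : x ≠ x')
    (Γ : ZMod d → ℤ) (c : ZMod d) :
    (d : ℤ) * (Fintype.card K : ℤ) ^ 2 * ∑ y : ℙ K (Fin (m + 1) → K),
      (if x.rep ⬝ᵥ y.rep ≠ 0 ∧ x'.rep ⬝ᵥ y.rep ≠ 0 then
        Γ (c + lg f (x.rep ⬝ᵥ y.rep) - lg f (x'.rep ⬝ᵥ y.rep)) else 0) =
      (Fintype.card K : ℤ) ^ (m + 1) * ((Fintype.card K : ℤ) - 1) * ∑ r, Γ r := by
  have hq : (1 : ℤ) < Fintype.card K := by exact_mod_cast Fintype.one_lt_card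
  have h1 := sum_rep (K := K) (m := m) (fun v => if x.rep ⬝ᵥ v ≠ 0 ∧ x'.rep ⬝ᵥ v ≠ 0 then
        Γ (c + lg f (x.rep ⬝ᵥ v) - lg f (x'.rep ⬝ᵥ v)) else 0) (by simp)
    (by
      intro u v
      simp only [Units.smul_def, dotProduct_smul, smul_eq_mul]
      by_cases ha : x.rep ⬝ᵥ v = 0
      · simp [ha]
      by_cases hb : x'.rep ⬝ᵥ v = 0
      · simp [hb]
      rw [if_pos ⟨mul_ne_zero u.ne_zero ha, mul_ne_zero u.ne_zero hb⟩, if_pos ⟨ha, hb⟩, lg_mul f u ha,
        lg_mul f u hb]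
      congr 1
      abel)
  have h2 := sum_comp_surj (dotHom2 x.rep x'.rep)
    (dot2_surj x.rep_nonzero x'.rep_nonzero (rep_indep h))
    (fun p => if p.1 ≠ 0 ∧ p.2 ≠ 0 then Γ (c + lg f p.1 - lg f p.2) else 0)
  change (Fintype.card (K × K) : ℤ) * ∑ v, (if x.rep ⬝ᵥ v ≠ 0 ∧ x'.rep ⬝ᵥ v ≠ 0 then
        Γ (c + lg f (x.rep ⬝ᵥ v) - lg f (x'.rep ⬝ᵥ v)) else 0) = _ at h2
  rw [h1, Fintype.card_prod, Fintype.card_fun, Fintype.card_fin, Fintype.sum_prod_type_right] at h2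
  have h3 : ∀ b : K, ∑ a : K, (if a ≠ 0 ∧ b ≠ 0 then Γ (c + lg f a - lg f b) else 0) =
      if b ≠ 0 then ∑ u : Kˣ, Γ (c - lg f b + f (Additive.ofMul u)) else 0 := by
    intro b
    by_cases hb : b = 0
    · simp [hb]
    · have e := sum_nonzero (fun a : K => Γ (c - lg f b + lg f a))
      simp only [lg_unit] at e
      rw [if_pos hb, ← e]
      refine Finset.sum_congr rfl fun a _ => ?_
      by_cases ha : a = 0
      · simp [ha]
      · rw [if_pos ⟨ha, hb⟩, if_pos ha]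
        congr 1
        abel
  have h4 : (d : ℤ) * ∑ b : K, ∑ a : K, (if a ≠ 0 ∧ b ≠ 0 then Γ (c + lg f a - lg f b) else 0) =
      ((Fintype.card K : ℤ) - 1) ^ 2 * ∑ r, Γ r := by
    rw [Finset.sum_congr rfl fun b _ => h3 b,
      sum_nonzero (fun b => ∑ u : Kˣ, Γ (c - lg f b + f (Additive.ofMul u))), Finset.mul_sum,
      Finset.sum_congr rfl fun (b : Kˣ) _ => sum_log f hf Γ (c - lg f b), Finset.sum_const, card_univ,
      Fintype.card_units, nsmul_eq_mul, Nat.cast_sub Fintype.card_pos]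
    push_cast
    ring
  have h5 := congrArg (fun z => (d : ℤ) * z) h2
  simp only at h5
  rw [mul_left_comm (d : ℤ) _ (∑ b : K, ∑ a : K, _), h4] at h5
  push_cast at h5
  have h6 : ((Fintype.card K : ℤ) - 1) ≠ 0 := by omega
  apply mul_left_cancel₀ h6
  linear_combination h5

end Pool.Agent.Y342.ION
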